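import Pool.Agent.H22.QG.Quad

set_option autoImplicit false

/-!
# [H22 QG Alg] D-type latin squares of order `2 ^ k`, `k ≥ 6`, by conjugation (helper22, idea of helper90 and helper41, for MP_2f0703_co)
-/

namespace Pool.Agent.H22.QG

open Finset

section
variable {F : Type} [Field F] [CharP F 2]

open Classical in
/-- the involution -/
noncomputable def th (V : AddSubgroup F) (c x : F) : F := if x ∈ V then x + c else x

theorem th_th (V : AddSubgroup F) (c : F) (hc : c ∈ V) (x : F) : th V c (th V c x) = x := by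
  have h2 : ∀ x : F, x + x = 0 := fun x => CharTwo.add_self_eq_zero x
  unfold th
  by_cases h : x ∈ V
  · rw [if_pos h, if_pos (V.add_mem h hc), add_assoc, h2, add_zero]
  · rw [if_neg h, if_neg h]

theorem inj_add (V : AddSubgroup F) (c b w : F) (hc : c ∈ V) (hw : w ∈ V) (hbw : b * w ∈ V) (hb : b + 1 ≠ 0)
    (hcw : (b + 1) * w = c) : Function.Injective (fun x => th V c (b * th V c x) + x) := by
  classical
  have h2 : ∀ x : F, x + x = 0 := fun x => CharTwo.add_self_eq_zero x
  let g : F → F := fun z => if (z ∈ V ↔ b * z ∈ V) then z else z + w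
  have hV : ∀ z, z + w ∈ V ↔ z ∈ V := fun z => V.add_mem_cancel_right hw
  have hbV : ∀ z, b * (z + w) ∈ V ↔ b * z ∈ V := fun z => by
    rw [mul_add]
    exact V.add_mem_cancel_right hbw
  have hg : ∀ z, g (g z) = z := by
    intro z
    by_cases h : (z ∈ V ↔ b * z ∈ V)
    · have h3 : g z = z := if_pos h
      rw [h3, h3]
    · have h3 : g z = z + w := if_neg h
      have h4 : ¬ (z + w ∈ V ↔ b * (z + w) ∈ V) := by rw [hV, hbV]; exact h
      have h5 : g (z + w) = z + w + w := if_neg h4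
      rw [h3, h5, add_assoc, h2, add_zero]
  have key : ∀ z, th V c (b * z) + th V c z = (b + 1) * g z := by
    intro z
    unfold th
    by_cases h1 : z ∈ V <;> by_cases h3 : b * z ∈ V
    · have h4 : g z = z := if_pos (by tauto)
      rw [if_pos h1, if_pos h3, h4]
      linear_combination h2 c
    · have h4 : g z = z + w := if_neg (by tauto)
      rw [if_pos h1, if_neg h3, h4]
      linear_combination - hcw
    · have h4 : g z = z + w := if_neg (by tauto)
      rw [if_neg h1, if_pos h3, h4]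
      linear_combination - hcw
    · have h4 : g z = z := if_pos (by tauto)
      rw [if_neg h1, if_neg h3, h4]
      ring
  intro x y hxy
  have h3 : ∀ x, th V c (b * th V c x) + x = (b + 1) * g (th V c x) := by
    intro x
    have h4 := key (th V c x)
    rw [th_th V c hc] at h4
    exact h4
  have h5 : th V c (b * th V c x) + x = th V c (b * th V c y) + y := hxy
  rw [h3, h3] at h5
  have h6 := mul_left_cancel₀ hb h5
  have h7 : th V c x = th V c y := by rw [← hg (th V c x), h6, hg]
  rw [← th_th V c hc x, h7, th_th V c hc]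

/-- the space spanned by `a`, `a ^ 2`, `a ^ 3` -/
def sp (a : F) : AddSubgroup F where
  carrier := {x | ∃ p q r : F, (p = 0 ∨ p = 1) ∧ (q = 0 ∨ q = 1) ∧ (r = 0 ∨ r = 1) ∧ x = p * a + q * a ^ 2 + r * a ^ 3}
  zero_mem' := ⟨0, 0, 0, Or.inl rfl, Or.inl rfl, Or.inl rfl, by ring⟩
  add_mem' := by
    rintro x y ⟨p, q, r, hp, hq, hr, rfl⟩ ⟨p', q', r', hp', hq', hr', rfl⟩
    have h : ∀ u v : F, (u = 0 ∨ u = 1) → (v = 0 ∨ v = 1) → (u + v = 0 ∨ u + v = 1) := by
      rintro u v (rfl | rfl) (rfl | rfl)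
      · left; ring
      · right; ring
      · right; ring
      · left; exact CharTwo.add_self_eq_zero 1
    exact ⟨p + p', q + q', r + r', h p p' hp hp', h q q' hq hq', h r r' hr hr', by ring⟩
  neg_mem' := by
    rintro x ⟨p, q, r, hp, hq, hr, rfl⟩
    exact ⟨p, q, r, hp, hq, hr, CharTwo.neg_eq _⟩

theorem mem_sp {a x : F} : x ∈ sp a ↔
    ∃ p q r : F, (p = 0 ∨ p = 1) ∧ (q = 0 ∨ q = 1) ∧ (r = 0 ∨ r = 1) ∧ x = p * a + q * a ^ 2 + r * a ^ 3 := Iff.rfl

theorem small (a : F) (ha : a ≠ 0) : ∃ S : Finset F, S.card ≤ 12 ∧ ∀ x, (x ∈ sp a ∨ a * x ∈ sp a) → x ∈ S := by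
  classical
  let b : Bool → F := fun t => if t then 1 else 0
  have hb : ∀ p : F, (p = 0 ∨ p = 1) → ∃ t : Bool, b t = p := by
    rintro p (rfl | rfl)
    · exact ⟨false, rfl⟩
    · exact ⟨true, rfl⟩
  let S1 : Finset F := (univ : Finset (Bool × Bool × Bool)).image fun t => b t.1 * a + b t.2.1 * a ^ 2 + b t.2.2 * a ^ 3
  let S2 : Finset F := (univ : Finset (Bool × Bool)).image fun t => 1 + b t.1 * a + b t.2 * a ^ 2
  refine ⟨S1 ∪ S2, ?_, ?_⟩
  · refine (card_union_le _ _).trans ?_
    have h1 : S1.card ≤ 8 := card_image_le.trans (by decide)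
    have h3 : S2.card ≤ 4 := card_image_le.trans (by decide)
    omega
  · have hV : ∀ x, x ∈ sp a → x ∈ S1 := by
      intro x hx
      obtain ⟨p, q, r, hp, hq, hr, rfl⟩ := mem_sp.1 hx
      obtain ⟨t1, rfl⟩ := hb p hp
      obtain ⟨t2, rfl⟩ := hb q hq
      obtain ⟨t3, rfl⟩ := hb r hr
      exact mem_image.2 ⟨(t1, t2, t3), mem_univ _, rfl⟩
    rintro x (hx | hx)
    · exact mem_union_left _ (hV x hx)
    · obtain ⟨p, q, r, hp, hq, hr, h⟩ := mem_sp.1 hx
      have hx' : x = p + q * a + r * a ^ 2 := by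
        apply mul_left_cancel₀ ha
        rw [h]
        ring
      rcases hp with rfl | rfl
      · refine mem_union_left _ (hV x (mem_sp.2 ⟨q, r, 0, hq, hr, Or.inl rfl, ?_⟩))
        rw [hx']
        ring
      · obtain ⟨t2, rfl⟩ := hb q hq
        obtain ⟨t3, rfl⟩ := hb r hr
        refine mem_union_right _ (mem_image.2 ⟨(t2, t3), mem_univ _, ?_⟩)
        rw [hx']

end

end Pool.Agent.H22.QG
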