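import Pool.Agent.H22.QG.Alg

set_option autoImplicit false

/-!
# [H22 QG Main] D-type latin squares of order `2 ^ k`, `k ≥ 6` (helper22, idea of helper90 and helper41, for MP_2f0703_co)
-/

namespace Pool.Agent.H22.QG

open Finset

theorem sq {k : ℕ} (hk : 6 ≤ k) : ∃ L : Fin (2 ^ k) → Equiv.Perm (Fin (2 ^ k)),
    (∀ j : Fin (2 ^ k), Function.Injective (fun i => L i j)) ∧
    (∀ i : Fin (2 ^ k), (∃! x, L i x = x) ∧ ∀ x y, L i x ≠ x → L i y ≠ y → ∃ n : ℕ, ((L i) ^ n) x = y) ∧
    (¬ ∃ (G : Type) (_ : Group G) (r c s : Fin (2 ^ k) ≃ G), ∀ i j, s (L i j) = r i * c j) ∧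
    (∀ j : Fin (2 ^ k), Function.Injective (fun i => (L i * L i) j)) := by
  classical
  haveI : Fact (Nat.Prime 2) := ⟨Nat.prime_two⟩
  have hum : k ≠ 0 := by omega
  let F := GaloisField 2 k
  letI : Fintype F := Fintype.ofFinite F
  have hcard : Fintype.card F = 2 ^ k := by
    rw [← Nat.card_eq_fintype_card]
    exact GaloisField.card 2 k hum
  have hbig : 64 ≤ 2 ^ k := by
    calc 64 = 2 ^ 6 := by norm_num
      _ ≤ 2 ^ k := Nat.pow_le_pow_right (by norm_num) hk
  obtain ⟨g, hg⟩ := IsCyclic.exists_generator (α := Fˣ)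
  set a : F := (g : F) with ha_def
  have ha : a ≠ 0 := g.ne_zero
  have hgen : ∀ x : F, x ≠ 0 → ∀ y : F, y ≠ 0 → ∃ n : ℕ, a ^ n * x = y := by
    intro x hx y hy
    have h1 : (Units.mk0 y hy) * (Units.mk0 x hx)⁻¹ ∈ Subgroup.zpowers g := hg _
    rw [← (isOfFinOrder_of_finite g).mem_powers_iff_mem_zpowers] at h1
    obtain ⟨n, hn⟩ := h1
    refine ⟨n, ?_⟩
    have h3 : g ^ n * (Units.mk0 x hx) = Units.mk0 y hy := by
      have h4 : g ^ n = (Units.mk0 y hy) * (Units.mk0 x hx)⁻¹ := hn
      rw [h4, inv_mul_cancel_right]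
    have h5 := congrArg (Units.val) h3
    simpa using h5
  have ha1 : a + 1 ≠ 0 := by
    intro h
    have h1 : a = 1 := by linear_combination h - CharTwo.add_self_eq_zero (1 : F)
    have h3 : Fintype.card F ≤ 2 := by
      have h4 : (univ : Finset F) ⊆ {0, 1} := by
        intro y _
        by_cases hy : y = 0
        · simp [hy]
        · obtain ⟨n, hn⟩ := hgen 1 one_ne_zero y hy
          rw [h1, one_pow, one_mul] at hn
          simp [← hn]
      have h5 := card_le_card h4
      rw [card_univ] at h5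
      exact h5.trans card_le_two
    omega
  set V : AddSubgroup F := sp a with hVdef
  set c : F := a ^ 3 + a with hc_def
  have h2 : ∀ x : F, x + x = 0 := fun x => CharTwo.add_self_eq_zero x
  have hc : c ∈ V := mem_sp.2 ⟨1, 0, 1, Or.inr rfl, Or.inl rfl, Or.inr rfl, by rw [hc_def]; ring⟩
  have hinv : Function.Involutive (th V c) := th_th V c hc
  let T : Equiv.Perm F := hinv.toPerm _
  have hT : ∀ x, T x = th V c x := fun x => rfl
  have hTT : ∀ x, T (T x) = x := fun x => hinv x
  let A : Equiv.Perm F := Equiv.mulLeft₀ a ha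
  have hA : ∀ x, A x = a * x := fun x => rfl
  have hAn : ∀ (n : ℕ) (x : F), (A ^ n) x = a ^ n * x := by
    intro n
    induction n with
    | zero => intro x; simp
    | succ n ih =>
      intro x
      rw [pow_succ', Equiv.Perm.mul_apply, ih, hA, pow_succ]
      ring
  obtain ⟨P, hP, hPn⟩ : ∃ P : Equiv.Perm F, (∀ x, P x = T (a * T x)) ∧ ∀ (n : ℕ) (x : F), (P ^ n) x = T (a ^ n * T x) := by
    have hP : ∀ x, (T * A * T) x = T (a * T x) := fun x => rfl
    refine ⟨T * A * T, hP, ?_⟩
    intro n
    induction n with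
    | zero => intro x; simp [hTT]
    | succ n ih =>
      intro x
      rw [pow_succ', Equiv.Perm.mul_apply, ih, hP, hTT, pow_succ]
      congr 1
      ring
  have e1 : (a + 1) * (a ^ 2 + a) = c := by
    rw [hc_def]
    linear_combination h2 (a ^ 2)
  have e2 : (a ^ 2 + 1) * a = c := by
    rw [hc_def]
    ring
  have inj1 : Function.Injective (fun x => P x + x) := by
    have h3 := inj_add V c a (a ^ 2 + a) hc
      (mem_sp.2 ⟨1, 1, 0, Or.inr rfl, Or.inr rfl, Or.inl rfl, by ring⟩)
      (mem_sp.2 ⟨0, 1, 1, Or.inl rfl, Or.inr rfl, Or.inr rfl, by ring⟩) ha1 e1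
    have h4 : (fun x => P x + x) = fun x => th V c (a * th V c x) + x := funext fun x => by
      rw [hP]
      rfl
    rw [h4]
    exact h3
  have ha2 : a ^ 2 + 1 ≠ 0 := by
    intro h
    have h3 : (a + 1) ^ 2 = 0 := by linear_combination h + h2 a
    exact ha1 (pow_eq_zero_iff (two_ne_zero) |>.1 h3)
  have inj2 : Function.Injective (fun x => P (P x) + x) := by
    have h3 := inj_add V c (a ^ 2) a hc
      (mem_sp.2 ⟨1, 0, 0, Or.inr rfl, Or.inl rfl, Or.inl rfl, by ring⟩)
      (mem_sp.2 ⟨0, 0, 1, Or.inl rfl, Or.inl rfl, Or.inr rfl, by ring⟩) ha2 e2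
    have h4 : (fun x => P (P x) + x) = fun x => th V c (a ^ 2 * th V c x) + x := by
      funext x
      have h5 := hPn 2 x
      rw [pow_two, Equiv.Perm.mul_apply] at h5
      rw [h5]
      rfl
    rw [h4]
    exact h3
  let ε : F ≃ Fin (2 ^ k) := Fintype.equivFinOfCardEq hcard
  let row : F → Equiv.Perm F := fun i => (Equiv.subRight i).trans (P.trans (Equiv.addLeft i))
  let L : Fin (2 ^ k) → Equiv.Perm (Fin (2 ^ k)) :=
    fun i => (ε.symm.trans (row (ε.symm i))).trans ε
  have hL : ∀ i x, L i x = ε (ε.symm i + P (ε.symm x - ε.symm i)) := fun i x => rfl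
  have hpow : ∀ (i : Fin (2 ^ k)) (l : ℕ) (x : Fin (2 ^ k)),
      ((L i) ^ l) x = ε (ε.symm i + (P ^ l) (ε.symm x - ε.symm i)) := by
    intro i l
    induction l with
    | zero => intro x; simp
    | succ n ih =>
      intro x
      rw [pow_succ, Equiv.Perm.mul_apply, ih, hL, Equiv.symm_apply_apply, pow_succ, Equiv.Perm.mul_apply,
        add_sub_cancel_left]
  have hsub : ∀ x y : F, x - y = x + y := fun x y => by linear_combination - h2 y
  refine ⟨L, ?_, ?_, ?_, ?_⟩
  · intro j i i' hij
    have h1 : L i j = L i' j := hij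
    rw [hL, hL] at h1
    have h3 := ε.injective h1
    have h4 : P (ε.symm j - ε.symm i) + (ε.symm j - ε.symm i) = P (ε.symm j - ε.symm i') + (ε.symm j - ε.symm i') := by
      rw [hsub, hsub] at h3 ⊢
      linear_combination h3 
    have h5 := inj1 h4
    exact ε.symm.injective (sub_right_injective h5)
  · intro i
    have hPc : ∀ x, P x = x ↔ T x = 0 := by
      intro x
      rw [hP]
      constructor
      · intro h
        have h3 : a * T x = T x := by
          have h4 := congrArg T h
          rw [hTT] at h4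
          exact h4
        have h5 : (a + 1) * T x = 0 := by linear_combination h3 + h2 (T x)
        exact (mul_eq_zero.1 h5).resolve_left ha1
      · intro h
        rw [h, mul_zero, ← h, hTT]
    have fix : ∀ x, L i x = x ↔ T (ε.symm x - ε.symm i) = 0 := by
      intro x
      rw [hL, ← hPc]
      constructor
      · intro hx
        have h1 : ε.symm i + P (ε.symm x - ε.symm i) = ε.symm x := by
          apply ε.injective; rw [hx, Equiv.apply_symm_apply]
        rw [eq_sub_iff_add_eq, add_comm]
        exact h1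
      · intro hx
        rw [hx, add_sub_cancel, Equiv.apply_symm_apply]
    refine ⟨⟨ε (ε.symm i + T 0), ?_, ?_⟩, ?_⟩
    · show L i _ = _
      rw [fix, Equiv.symm_apply_apply, add_sub_cancel_left, hTT]
    · intro x hx
      have h3 := (fix x).1 hx
      have h4 : ε.symm x - ε.symm i = T 0 := by rw [← h3, hTT]
      apply ε.symm.injective
      rw [Equiv.symm_apply_apply, ← h4, add_sub_cancel]
    · intro x y hx hy
      have hx' : T (ε.symm x - ε.symm i) ≠ 0 := fun h => hx ((fix x).2 h)
      have hy' : T (ε.symm y - ε.symm i) ≠ 0 := fun h => hy ((fix y).2 h)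
      obtain ⟨n, hn⟩ := hgen _ hx' _ hy'
      refine ⟨n, ?_⟩
      rw [hpow, hPn, hn, hTT, add_sub_cancel, Equiv.apply_symm_apply]
  · rintro ⟨G, hG, r, c', s, H⟩
    obtain ⟨S, hS1, hS2⟩ := small a ha
    have hc0 : c ≠ 0 := by
      rw [← e2]
      exact mul_ne_zero ha2 ha
    refine quad a S (fun x => P x) ?_ 0 ?_ (by rw [hcard]; omega) G (ε.trans r) (ε.trans c') (ε.trans s) fun i j => ?_
    · intro x hx
      have h3 : x ∉ V := fun h => hx (hS2 x (Or.inl h))
      have h4 : a * x ∉ V := fun h => hx (hS2 x (Or.inr h))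
      show P x = a * x
      rw [hP]
      show th V c (a * th V c x) = a * x
      unfold th
      rw [if_neg h3, if_neg h4]
    · show P 0 ≠ a * 0
      rw [hP]
      show th V c (a * th V c 0) ≠ a * 0
      have h3 : th V c 0 = c := by
        unfold th
        rw [if_pos V.zero_mem, zero_add]
      rw [h3, mul_zero]
      unfold th
      by_cases h4 : a * c ∈ V
      · rw [if_pos h4]
        have h5 : a * c + c = (a + 1) * c := by ring
        rw [h5]
        exact mul_ne_zero ha1 hc0
      · rw [if_neg h4]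
        exact mul_ne_zero ha hc0
    · have h1 := H (ε i) (ε j)
      rw [hL, Equiv.symm_apply_apply, Equiv.symm_apply_apply] at h1
      exact h1
  · intro j i i' hij
    have h1 : (L i * L i) j = (L i' * L i') j := hij
    rw [← pow_two, ← pow_two, hpow, hpow, pow_two, Equiv.Perm.mul_apply, Equiv.Perm.mul_apply] at h1
    have h3 := ε.injective h1
    have h4 : P (P (ε.symm j - ε.symm i)) + (ε.symm j - ε.symm i) =
        P (P (ε.symm j - ε.symm i')) + (ε.symm j - ε.symm i') := by
      rw [hsub, hsub] at h3 ⊢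
      linear_combination h3
    have h5 := inj2 h4
    exact ε.symm.injective (sub_right_injective h5)

end Pool.Agent.H22.QG
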