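import Mathlib

set_option autoImplicit false

/-!
# [H22 QG Quad] a map which is linear outside a small set gives no group table (helper22, for MP_2f0703_co)
-/

namespace Pool.Agent.H22.QG

open Finset

theorem quad {F : Type} [Field F] [Fintype F] [DecidableEq F] [CharP F 2] (a : F) (S : Finset F) (f : F → F)
    (hf : ∀ x, x ∉ S → f x = a * x) (s₀ : F) (hs : f s₀ ≠ a * s₀) (hcard : 4 * S.card < Fintype.card F)
    (G : Type) [Group G] (r c s : F ≃ G) (H : ∀ i j, s (i + f (j - i)) = r i * c j) : False := by
  have h2 : ∀ x : F, x + x = 0 := fun x => CharTwo.add_self_eq_zero x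
  -- a point outside a set of at most 4 |S| elements
  have pick : ∀ T : Finset F, T.card ≤ 4 * S.card → ∃ x, x ∉ T := by
    intro T hT
    by_contra hcon
    push Not at hcon
    have h1 : (univ : Finset F) ⊆ T := fun x _ => hcon x
    have h3 := card_le_card h1
    rw [card_univ] at h3
    omega
  obtain ⟨t, ht⟩ := pick (S.image fun x => x + s₀) (card_image_le.trans (by omega))
  have ht' : s₀ + t ∉ S := fun h => ht (mem_image.2 ⟨s₀ + t, h, by linear_combination h2 s₀⟩)
  obtain ⟨u, hu⟩ := pick (S ∪ S.image fun x => x + t)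
    ((card_union_le _ _).trans (by have := card_image_le (s := S) (f := fun x => x + t); omega))
  rw [mem_union, not_or] at hu
  have hu' : u + t ∉ S := fun h => hu.2 (mem_image.2 ⟨u + t, h, by linear_combination h2 t⟩)
  obtain ⟨v, hv⟩ := pick ((S ∪ S.image fun x => x + t) ∪ (S.image (fun x => x + (s₀ + u)) ∪ S.image fun x => x + (s₀ + u + t)))
    ((card_union_le _ _).trans (by
      have h3 := card_union_le S (S.image fun x => x + t)
      have h4 := card_union_le (S.image fun x => x + (s₀ + u)) (S.image fun x => x + (s₀ + u + t))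
      have h5 := card_image_le (s := S) (f := fun x => x + t)
      have h6 := card_image_le (s := S) (f := fun x => x + (s₀ + u))
      have h7 := card_image_le (s := S) (f := fun x => x + (s₀ + u + t))
      omega))
  rw [mem_union, not_or, mem_union, not_or, mem_union, not_or] at hv
  obtain ⟨⟨hv1, hv2⟩, hv3, hv4⟩ := hv
  have hv2' : v + t ∉ S := fun h => hv2 (mem_image.2 ⟨v + t, h, by linear_combination h2 t⟩)
  have hw : s₀ + u + v ∉ S := fun h => hv3 (mem_image.2 ⟨s₀ + u + v, h, by linear_combination h2 (s₀ + u)⟩)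
  have hw' : s₀ + u + v + t ∉ S := fun h => hv4 (mem_image.2 ⟨s₀ + u + v + t, h, by linear_combination h2 (s₀ + u + t)⟩)
  -- the quadrangle: rows 0, m = v + s₀, columns j = u, l = v; u = 0 + u, v = 0 + v, m + j = s₀ + u + v, m + l = s₀
  have hsub : ∀ x y : F, x - y = x + y := fun x y => by linear_combination - h2 y
  have H' : ∀ i j, s (i + f (i + j)) = r i * c j := fun i j => by
    have h3 := H i j
    rw [hsub, add_comm j i] at h3
    exact h3
  -- equal symbols
  have e1 : (0 : F) + f (0 + u) = a * t + f (a * t + (u + (1 + a) * t)) := by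
    have h3 : a * t + (u + (1 + a) * t) = u + t := by linear_combination h2 (a * t)
    rw [h3, zero_add, zero_add, hf u hu.1, hf _ hu']
    linear_combination - h2 (a * t)
  have e2 : (0 : F) + f (0 + v) = a * t + f (a * t + (v + (1 + a) * t)) := by
    have h3 : a * t + (v + (1 + a) * t) = v + t := by linear_combination h2 (a * t)
    rw [h3, zero_add, zero_add, hf v hv1, hf _ hv2']
    linear_combination - h2 (a * t)
  have e3 : (v + s₀) + f ((v + s₀) + u) = (v + s₀ + a * t) + f ((v + s₀ + a * t) + (u + (1 + a) * t)) := by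
    have h3 : (v + s₀ + a * t) + (u + (1 + a) * t) = s₀ + u + v + t := by linear_combination h2 (a * t)
    have h4 : (v + s₀) + u = s₀ + u + v := by ring
    rw [h3, h4, hf _ hw, hf _ hw']
    linear_combination - h2 (a * t)
  have g1 := H' 0 u
  have g1' := H' (a * t) (u + (1 + a) * t)
  have g2 := H' 0 v
  have g2' := H' (a * t) (v + (1 + a) * t)
  have g3 := H' (v + s₀) u
  have g3' := H' (v + s₀ + a * t) (u + (1 + a) * t)
  have g4 := H' (v + s₀) v
  have g4' := H' (v + s₀ + a * t) (v + (1 + a) * t)
  rw [← e1, g1] at g1'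
  rw [← e2, g2] at g2'
  rw [← e3, g3] at g3'
  have key : r (v + s₀) * c v = r (v + s₀ + a * t) * c (v + (1 + a) * t) := by
    -- r m c l = (r m c j) (r i c j)⁻¹ (r i c l)
    have k1 : r (v + s₀) * c v = (r (v + s₀) * c u) * (r 0 * c u)⁻¹ * (r 0 * c v) := by group
    have k2 : r (v + s₀ + a * t) * c (v + (1 + a) * t) =
        (r (v + s₀ + a * t) * c (u + (1 + a) * t)) * (r (a * t) * c (u + (1 + a) * t))⁻¹ * (r (a * t) * c (v + (1 + a) * t)) := by
      group
    rw [k1, k2, g1', g2', g3']
  rw [← g4, ← g4'] at key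
  have key2 := s.injective key
  have h3 : (v + s₀) + v = s₀ := by linear_combination h2 v
  have h4 : (v + s₀ + a * t) + (v + (1 + a) * t) = s₀ + t := by linear_combination h2 v + h2 (a * t)
  rw [h3, h4, hf _ ht'] at key2
  apply hs
  linear_combination key2 + h2 (a * t)

end Pool.Agent.H22.QG
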